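import Mathlib
import Pool.Agent.H9.PhyU

set_option autoImplicit false

namespace Pool.Agent.Results.MP_8b9f13_co.NotUnimodal

open Pool.Agent.H9.Phy

theorem result : ¬ ∀ (n : ℕ) (T F : PTree n), 1 ≤ n → ∃ m, 1 ≤ m ∧ m ≤ n ∧
    (∀ k, 1 ≤ k → k < m → commonNT T F k ≤ commonNT T F (k + 1)) ∧
    (∀ k, m ≤ k → k < n → commonNT T F (k + 1) ≤ commonNT T F k) := by
  intro h
  obtain ⟨m, -, -, h1, h2⟩ := h 17 Pool.Agent.H9.PhyU.T0 Pool.Agent.H9.PhyU.F0 (by norm_num)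
  rcases le_or_gt m 10 with h | h
  · have := h2 11 (by omega) (by omega)
    rw [Pool.Agent.H9.PhyU.c11, Pool.Agent.H9.PhyU.c12] at this; omega
  · have := h1 10 (by omega) h
    rw [Pool.Agent.H9.PhyU.c10, Pool.Agent.H9.PhyU.c11] at this; omega

end Pool.Agent.Results.MP_8b9f13_co.NotUnimodal
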